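import Pool.Agent.Helper79.LG.Rec

/-!
Polynomials with coefficients `0, 1` divisible by an integer polynomial of large degree and small
Mahler measure.
-/

open Finset

namespace Pool.Agent.Helper79.LC

/-- The polynomial with coefficients in `{0, 1}` attached to a set of exponents. -/
noncomputable def pol (n : ℕ) (S : Finset ℕ) : Polynomial ℤ :=
  Polynomial.X ^ n + 1 + ∑ i ∈ S, Polynomial.X ^ i

lemma coeff_sumX (S : Finset ℕ) (k : ℕ) :
    (∑ i ∈ S, (Polynomial.X : Polynomial ℤ) ^ i).coeff k = if k ∈ S then 1 else 0 := by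
  rw [Polynomial.finsetSum_coeff]
  simp_rw [Polynomial.coeff_X_pow]
  rw [sum_ite_eq S k]

lemma coeff_pol {n : ℕ} (S : Finset ℕ) (k : ℕ) :
    (pol n S).coeff k = (if k = n then 1 else 0) + (if k = 0 then 1 else 0) +
      (if k ∈ S then 1 else 0) := by
  rw [pol, Polynomial.coeff_add, Polynomial.coeff_add, coeff_sumX, Polynomial.coeff_X_pow,
    Polynomial.coeff_one]

lemma natDegree_pol {n : ℕ} (hn : 1 ≤ n) {S : Finset ℕ} (hS : S ⊆ Ioo 0 n) :
    (pol n S).natDegree = n := by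
  apply le_antisymm
  · rw [Polynomial.natDegree_le_iff_coeff_eq_zero]
    intro k hk
    rw [coeff_pol, if_neg (by omega), if_neg (by omega), if_neg]
    · norm_num
    · intro h
      have := mem_Ioo.mp (hS h)
      omega
  · apply Polynomial.le_natDegree_of_ne_zero
    rw [coeff_pol, if_pos rfl, if_neg (by omega), if_neg]
    · norm_num
    · intro h
      have := mem_Ioo.mp (hS h)
      omega

lemma pol_ne_zero {n : ℕ} (hn : 1 ≤ n) {S : Finset ℕ} (hS : S ⊆ Ioo 0 n) : pol n S ≠ 0 := by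
  intro h
  have := natDegree_pol hn hS
  rw [h] at this
  simp at this
  omega

lemma coeff_pol_le {n : ℕ} (hn : 1 ≤ n) {S : Finset ℕ} (hS : S ⊆ Ioo 0 n) (k : ℕ) :
    |(pol n S).coeff k| ≤ 1 := by
  rw [coeff_pol]
  have h1 : k ∈ S → 0 < k ∧ k < n := fun h => mem_Ioo.mp (hS h)
  by_cases ha : k = n
  · rw [if_pos ha, if_neg (by omega), if_neg (fun h => by have := h1 h; omega)]
    norm_num
  · rw [if_neg ha]
    by_cases hb : k = 0
    · rw [if_pos hb, if_neg (fun h => by have := h1 h; omega)]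
      norm_num
    · rw [if_neg hb]
      by_cases hc : k ∈ S
      · rw [if_pos hc]; norm_num
      · rw [if_neg hc]; norm_num

lemma MM_pol_le {n : ℕ} (hn : 1 ≤ n) {S : Finset ℕ} (hS : S ⊆ Ioo 0 n) :
    MM (pol n S) ≤ √((n : ℝ) + 1) := by
  rw [MM]
  refine (Polynomial.mahlerMeasure_le_sqrt_natDegree_add_one_mul_supNorm _).trans ?_
  rw [mapC_deg, natDegree_pol hn hS]
  have h1 : ((pol n S).map (Int.castRingHom ℂ)).supNorm ≤ 1 := by
    obtain ⟨i, hi⟩ := Polynomial.exists_eq_supNorm ((pol n S).map (Int.castRingHom ℂ))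
    rw [hi, Polynomial.coeff_map]
    have h2 := coeff_pol_le hn hS i
    have h3 : ‖(Int.castRingHom ℂ) ((pol n S).coeff i)‖ = ((|(pol n S).coeff i| : ℤ) : ℝ) := by
      rw [eq_intCast, Complex.norm_intCast]; push_cast; rfl
    rw [h3]
    exact_mod_cast h2
  calc √((n : ℝ) + 1) * ((pol n S).map (Int.castRingHom ℂ)).supNorm ≤ √((n : ℝ) + 1) * 1 := by
        gcongr
    _ = _ := mul_one _

open Classical in
/-- Few polynomials are divisible by a given one. -/
lemma card_mult {n : ℕ} (g : Polynomial ℤ) :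
    #((Ioo 0 n).powerset.filter fun S => g ∣ pol n S) ≤ 2 ^ (n - g.natDegree) := by
  set d := g.natDegree with hdd
  have h1 : #((Ico d n).powerset) = 2 ^ (n - d) := by rw [card_powerset, Nat.card_Ico]
  rw [← h1]
  apply card_le_card_of_injOn (fun S => S.filter fun i => d ≤ i)
  · intro S hS
    rw [mem_coe, mem_filter, mem_powerset] at hS
    rw [mem_coe, mem_powerset]
    intro i hi
    obtain ⟨h2, h3⟩ := mem_filter.mp hi
    have := mem_Ioo.mp (hS.1 h2)
    rw [mem_Ico]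
    exact ⟨h3, this.2⟩
  · intro S hS S' hS' hSS
    rw [mem_coe, mem_filter, mem_powerset] at hS hS'
    have h2 : g ∣ pol n S - pol n S' := dvd_sub hS.2 hS'.2
    have h3 : ∀ k, (pol n S - pol n S').coeff k = (if k ∈ S then 1 else 0) -
        (if k ∈ S' then 1 else 0) := by
      intro k
      rw [Polynomial.coeff_sub, coeff_pol, coeff_pol]; ring
    have h4 : ∀ k, d ≤ k → (k ∈ S ↔ k ∈ S') := by
      intro k hk
      have h5 : S.filter (fun i => d ≤ i) = S'.filter fun i => d ≤ i := hSS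
      have h6 := Finset.ext_iff.mp h5 k
      rw [mem_filter, mem_filter] at h6
      tauto
    have h5 : pol n S - pol n S' = 0 := by
      by_contra h0
      have h6 := Polynomial.natDegree_le_of_dvd h2 h0
      rw [← hdd] at h6
      have h7 : (pol n S - pol n S').coeff (pol n S - pol n S').natDegree ≠ 0 :=
        Polynomial.leadingCoeff_ne_zero.mpr h0
      apply h7
      rw [h3]
      have h8 := h4 _ h6
      by_cases h9 : (pol n S - pol n S').natDegree ∈ S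
      · rw [if_pos h9, if_pos (h8.mp h9), sub_self]
      · rw [if_neg h9, if_neg (fun h => h9 (h8.mpr h)), sub_self]
    ext k
    have h6 := h3 k
    rw [h5, Polynomial.coeff_zero] at h6
    by_cases h7 : k ∈ S
    · by_cases h8 : k ∈ S'
      · simp [h7, h8]
      · rw [if_pos h7, if_neg h8] at h6; omega
    · by_cases h8 : k ∈ S'
      · rw [if_neg h7, if_pos h8] at h6; omega
      · simp [h7, h8]

open Classical in
/-- The union bound. -/
lemma union_count {n D : ℕ} (𝒢 : Finset (Polynomial ℤ))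
    (hG : ∀ g ∈ 𝒢, D ≤ g.natDegree ∧ g.natDegree ≤ n) :
    #((Ioo 0 n).powerset.filter fun S => ∃ g ∈ 𝒢, g ∣ pol n S) ≤ #𝒢 * 2 ^ (n - D) := by
  have h1 : (Ioo 0 n).powerset.filter (fun S => ∃ g ∈ 𝒢, g ∣ pol n S) ⊆
      𝒢.biUnion fun g => (Ioo 0 n).powerset.filter fun S => g ∣ pol n S := by
    intro S hS
    obtain ⟨h2, g, hg, h3⟩ := mem_filter.mp hS
    rw [mem_biUnion]
    exact ⟨g, hg, mem_filter.mpr ⟨h2, h3⟩⟩
  refine (card_le_card h1).trans (card_biUnion_le.trans ?_)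
  rw [← smul_eq_mul, ← sum_const]
  refine sum_le_sum fun g hg => ?_
  obtain ⟨h2, _⟩ := hG g hg
  refine (card_mult g).trans ?_
  exact Nat.pow_le_pow_right (by norm_num) (by omega)

/-- sets whose polynomial has a divisor of large degree and small measure -/
def exA (C : ℝ) (n D : ℕ) : Set (Finset ℕ) :=
  {S | S ⊆ Ioo 0 n ∧ ∃ g : Polynomial ℤ, g ∣ pol n S ∧ D ≤ g.natDegree ∧
    C * MM g ^ 2 * √(n * Real.log n) ≤ D}

theorem part_A : ∃ C : ℝ, 0 < C ∧ ∀ n D : ℕ, 2 ≤ n →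
    ((exA C n D).ncard : ℝ) ≤ 2 ^ ((n : ℝ) - D / 2) := by
  classical
  obtain ⟨C₀, hC₀, h⟩ := count_sqrt
  have hl2 : 0 < Real.log 2 := Real.log_pos (by norm_num)
  refine ⟨2 * C₀ / Real.log 2, by positivity, ?_⟩
  intro n D hn
  set C : ℝ := 2 * C₀ / Real.log 2 with hC
  have hCpos : 0 < C := by positivity
  have hn2 : (2 : ℝ) ≤ n := by exact_mod_cast hn
  have hlog : 0 < Real.log n := Real.log_pos (by linarith)
  set Y : ℝ := √(n * Real.log n) with hY
  have hY0 : 0 < Y := Real.sqrt_pos.mpr (by positivity)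
  have hfin : (exA C n D).Finite := by
    refine (finite_toSet (Ioo 0 n).powerset).subset ?_
    rintro S ⟨h1, _⟩
    exact mem_coe.mpr (mem_powerset.mpr h1)
  set T : ℝ := √(D / (C * Y)) with hT
  have hT2 : T ^ 2 = D / (C * Y) := Real.sq_sqrt (by positivity)
  have hkey : ∀ g : Polynomial ℤ, C * MM g ^ 2 * Y ≤ D → MM g ≤ T := by
    intro g hg
    apply Real.le_sqrt_of_sq_le
    rw [le_div_iff₀ (by positivity)]
    linarith
  rcases lt_or_ge T 1 with hT1 | hT1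
  · have : exA C n D = ∅ := by
      rw [Set.eq_empty_iff_forall_notMem]
      rintro S ⟨h1, g, h2, h3, h4⟩
      have h5 := hkey g h4
      have hg0 : g ≠ 0 := ne_zero_of_dvd_ne_zero (pol_ne_zero (by omega) h1) h2
      have := one_le_MM' hg0
      linarith
    rw [this, Set.ncard_empty, Nat.cast_zero]
    positivity
  rcases lt_or_ge n D with hnD | hDn
  · have : exA C n D = ∅ := by
      rw [Set.eq_empty_iff_forall_notMem]
      rintro S ⟨h1, g, h2, h3, h4⟩
      have h6 := Polynomial.natDegree_le_of_dvd h2 (pol_ne_zero (by omega) h1)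
      rw [natDegree_pol (by omega) h1] at h6
      omega
    rw [this, Set.ncard_empty, Nat.cast_zero]
    positivity
  set 𝒢 : Finset (Polynomial ℤ) := (finite_famT n (zero_le_one.trans hT1)).toFinset.filter
    fun g => D ≤ g.natDegree with h𝒢
  have hG : ∀ g ∈ 𝒢, D ≤ g.natDegree ∧ g.natDegree ≤ n := by
    intro g hg
    obtain ⟨h1, h2⟩ := mem_filter.mp hg
    rw [Set.Finite.mem_toFinset] at h1
    exact ⟨h2, h1.1⟩
  have hcard : (#𝒢 : ℝ) ≤ 2 ^ ((D : ℝ) / 2) := by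
    have h1 : #𝒢 ≤ (famT n T).ncard := by
      rw [Set.ncard_eq_toFinset_card _ (finite_famT n (zero_le_one.trans hT1))]
      exact card_filter_le _ _
    have h2 : (#𝒢 : ℝ) ≤ (famT n T).ncard := by exact_mod_cast h1
    refine h2.trans ((h n T hn hT1).trans ?_)
    rw [Real.rpow_def_of_pos (by norm_num)]
    apply Real.exp_le_exp.mpr
    rw [← hY, hT2, hC]
    apply le_of_eq
    field_simp
  have hsub : exA C n D ⊆
      ((Ioo 0 n).powerset.filter fun S => ∃ g ∈ 𝒢, g ∣ pol n S : Finset (Finset ℕ)) := by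
    rintro S ⟨h1, g, h2, h3, h4⟩
    rw [mem_coe, mem_filter, mem_powerset]
    refine ⟨h1, g, ?_, h2⟩
    rw [h𝒢, mem_filter, Set.Finite.mem_toFinset]
    have h6 := Polynomial.natDegree_le_of_dvd h2 (pol_ne_zero (by omega) h1)
    rw [natDegree_pol (by omega) h1] at h6
    exact ⟨⟨h6, hkey g h4⟩, h3⟩
  have h1 : (exA C n D).ncard ≤ #𝒢 * 2 ^ (n - D) := by
    refine (Set.ncard_le_ncard hsub (finite_toSet _)).trans ?_
    rw [Set.ncard_coe_finset]
    exact union_count 𝒢 hG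
  calc ((exA C n D).ncard : ℝ) ≤ ((#𝒢 * 2 ^ (n - D) : ℕ) : ℝ) := by exact_mod_cast h1
    _ = #𝒢 * 2 ^ (n - D) := by push_cast; ring
    _ ≤ 2 ^ ((D : ℝ) / 2) * 2 ^ (n - D) := by gcongr
    _ = 2 ^ ((D : ℝ) / 2) * 2 ^ ((n : ℝ) - D) := by
        rw [← Real.rpow_natCast, Nat.cast_sub hDn]
    _ = 2 ^ ((n : ℝ) - D / 2) := by
        rw [← Real.rpow_add (by norm_num)]
        congr 1; ring

/-- sets whose polynomial is a product of three polynomials of large degree -/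
def exB (C : ℝ) (n : ℕ) : Set (Finset ℕ) :=
  {S | S ⊆ Ioo 0 n ∧ ∃ g₁ g₂ g₃ : Polynomial ℤ, pol n S = g₁ * g₂ * g₃ ∧
    C * (n : ℝ) ^ (5 / 6 : ℝ) * √(Real.log n) ≤ g₁.natDegree ∧
    C * (n : ℝ) ^ (5 / 6 : ℝ) * √(Real.log n) ≤ g₂.natDegree ∧
    C * (n : ℝ) ^ (5 / 6 : ℝ) * √(Real.log n) ≤ g₃.natDegree}

lemma min_three {x y z s : ℝ} (hx : 0 < x) (hy : 0 < y) (hz : 0 < z) (hs : 0 ≤ s)
    (h : x * y * z ≤ s) : x ^ 3 ≤ s ∨ y ^ 3 ≤ s ∨ z ^ 3 ≤ s := by
  by_contra hcon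
  push Not at hcon
  obtain ⟨h1, h2, h3⟩ := hcon
  have h4 : s * s * s < x ^ 3 * y ^ 3 * z ^ 3 := by
    have e1 : s * s ≤ x ^ 3 * y ^ 3 := mul_le_mul h1.le h2.le hs (by positivity)
    have e2 : 0 < x ^ 3 * y ^ 3 := by positivity
    calc s * s * s ≤ x ^ 3 * y ^ 3 * s := by gcongr
      _ < x ^ 3 * y ^ 3 * z ^ 3 := by gcongr
  have h5 : x ^ 3 * y ^ 3 * z ^ 3 = (x * y * z) ^ 3 := by ring
  have h6 : (x * y * z) ^ 3 ≤ s ^ 3 := by gcongr
  rw [h5] at h4
  have h7 : s * s * s = s ^ 3 := by ring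
  linarith

theorem part_B {C : ℝ} (hC : 0 < C)
    (hA : ∀ n D : ℕ, 2 ≤ n → ((exA C n D).ncard : ℝ) ≤ 2 ^ ((n : ℝ) - D / 2)) {C' : ℝ}
    (hC1 : 2 * C ≤ C') (hC2 : 4 ≤ C') (n : ℕ) (hn : 2 ≤ n) :
    ((exB C' n).ncard : ℝ) ≤ 2 ^ ((n : ℝ) - (n : ℝ) ^ (5 / 6 : ℝ)) := by
  have hn2 : (2 : ℝ) ≤ n := by exact_mod_cast hn
  have hn0 : (0 : ℝ) < n := by linarith
  have hlog : 0 < Real.log n := Real.log_pos (by linarith)
  set L : ℝ := √(Real.log n) with hL
  have hL0 : 0 < L := Real.sqrt_pos.mpr hlog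
  set z : ℝ := (n : ℝ) ^ (5 / 6 : ℝ) with hz
  have hz0 : 0 < z := Real.rpow_pos_of_pos hn0 _
  set D : ℕ := ⌈C' * z * L⌉₊ with hD
  have hDle : C' * z * L ≤ D := Nat.le_ceil _
  have hkey : ∀ x : ℝ, 0 < x → x ^ 3 ≤ √((n : ℝ) + 1) → C * x ^ 2 * √(n * Real.log n) ≤ D := by
    intro x hx hx3
    set y : ℝ := (n : ℝ) ^ (1 / 3 : ℝ) with hy
    have hy0 : 0 < y := Real.rpow_pos_of_pos hn0 _
    have hy3 : y ^ 3 = n := by
      rw [hy, ← Real.rpow_natCast, ← Real.rpow_mul hn0.le]; norm_num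
    have h1 : (x ^ 3) ^ 2 ≤ n + 1 := by
      calc (x ^ 3) ^ 2 ≤ √((n : ℝ) + 1) ^ 2 := by gcongr
        _ = (n : ℝ) + 1 := Real.sq_sqrt (by linarith)
    have h2 : x ^ 2 ≤ 2 * y := by
      have h3 : (x ^ 2) ^ 3 ≤ (2 * y) ^ 3 := by
        calc (x ^ 2) ^ 3 = (x ^ 3) ^ 2 := by ring
          _ ≤ (n : ℝ) + 1 := h1
          _ ≤ 8 * (n : ℝ) := by linarith
          _ = (2 * y) ^ 3 := by rw [← hy3]; ring
      exact le_of_pow_le_pow_left₀ (by norm_num) (by positivity) h3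
    have h4 : √(n * Real.log n) = √n * L := Real.sqrt_mul hn0.le _
    have h5 : y * √n = z := by
      rw [hy, hz, Real.sqrt_eq_rpow, ← Real.rpow_add hn0]; norm_num
    calc C * x ^ 2 * √(n * Real.log n) ≤ C * (2 * y) * √(n * Real.log n) := by gcongr
      _ = 2 * C * (y * √n) * L := by rw [h4]; ring
      _ = 2 * C * z * L := by rw [h5]
      _ ≤ C' * z * L := by gcongr
      _ ≤ D := hDle
  have hsub : exB C' n ⊆ exA C n D := by
    rintro S ⟨h1, g₁, g₂, g₃, h2, d1, d2, d3⟩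
    have hp := pol_ne_zero (by omega : 1 ≤ n) h1
    have hM := MM_pol_le (by omega : 1 ≤ n) h1
    rw [h2] at hp hM
    have e1 : g₁ ≠ 0 := left_ne_zero_of_mul (left_ne_zero_of_mul hp)
    have e2 : g₂ ≠ 0 := right_ne_zero_of_mul (left_ne_zero_of_mul hp)
    have e3 : g₃ ≠ 0 := right_ne_zero_of_mul hp
    rw [MM_mul, MM_mul] at hM
    have f1 := one_le_MM' e1
    have f2 := one_le_MM' e2
    have f3 := one_le_MM' e3
    rcases min_three (by linarith) (by linarith) (by linarith) (Real.sqrt_nonneg _) hM with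
      h | h | h
    · exact ⟨h1, g₁, ⟨g₂ * g₃, by rw [h2]; ring⟩, Nat.ceil_le.mpr d1, hkey _ (by linarith) h⟩
    · exact ⟨h1, g₂, ⟨g₁ * g₃, by rw [h2]; ring⟩, Nat.ceil_le.mpr d2, hkey _ (by linarith) h⟩
    · exact ⟨h1, g₃, ⟨g₁ * g₂, by rw [h2]; ring⟩, Nat.ceil_le.mpr d3, hkey _ (by linarith) h⟩
  have hfin : (exA C n D).Finite := by
    refine (finite_toSet (Ioo 0 n).powerset).subset ?_
    rintro S ⟨h1, _⟩
    exact mem_coe.mpr (mem_powerset.mpr h1)
  have h1 : ((exB C' n).ncard : ℝ) ≤ (exA C n D).ncard := by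
    exact_mod_cast Set.ncard_le_ncard hsub hfin
  refine h1.trans ((hA n D hn).trans ?_)
  apply Real.rpow_le_rpow_of_exponent_le (by norm_num)
  have hL1 : 1 / 2 ≤ L := by
    apply Real.le_sqrt_of_sq_le
    have h2 := Real.log_le_log (by norm_num) hn2
    have := Real.log_two_gt_d9
    linarith
  have h2 : z ≤ (D : ℝ) / 2 := by
    calc z = 4 * z * (1 / 2) / 2 := by ring
      _ ≤ C' * z * L / 2 := by gcongr
      _ ≤ (D : ℝ) / 2 := by linarith
  linarith

end Pool.Agent.Helper79.LC
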